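import Pool.Agent.helper91.MM.SpecB

/-! # Row LWR: lower bounds of decreasing sequences of conditions -/

set_option autoImplicit false

namespace Pool.Agent.MM

open Pool.Agent.Scheepers Filter Topology

theorem LWR_Lg_mono {S : Sys} {N M : ℕ} {B : Set (ℕ → Bool)} {l r : ℕ} (h : Lg S M B l r)
    (hNM : N ≤ M) : Lg S N B l r :=
  fun t ht w h1 h2 hw => h t (S.mono N M hNM ht) w (h1.trans hNM) (h2.trans hNM) hw

theorem LWR_R_loc {S : Sys} (p : Cnd S) (d d' : ℕ) (u v : ℕ → Bool)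
    (h : ∀ e, d ≤ e → e < d' → u e = v e) (hu : u ∈ p.R d d') : v ∈ p.R d d' := by
  intro j hj hj'
  refine p.loc j u v (fun e he he' => h e (hj.trans he) (lt_of_lt_of_le he' hj')) (hu j hj hj')

/-- Monotonicity of `R` along the order, between cut points. -/
theorem LWR_R_sub (h1 : XBK_stmt) {S : Sys} {q p : Cnd S} {M : ℕ}
    (hM : ∀ i, M ≤ q.a i → q.a i ∈ Set.range p.a ∧ q.A i ⊆ p.R (q.a i) (q.a (i + 1)))
    {i i' : ℕ} (hi : M ≤ q.a i) : q.R (q.a i) (q.a i') ⊆ p.R (q.a i) (q.a i') := by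
  intro z hz j hj hj'
  obtain ⟨s, hs1, hs2, hs3⟩ := (h1 S q).1 i (p.a j) hj
  have hss : M ≤ q.a s := hi.trans (q.mono.monotone hs1)
  obtain ⟨h1, h2⟩ := hM s hss
  have hlt : q.a s < q.a i' := by
    have : p.a j < p.a (j + 1) := p.mono (Nat.lt_succ_self j)
    omega
  have hs4 : s + 1 ≤ i' := q.mono.lt_iff_lt.1 hlt
  have hs5 : q.a (s + 1) ≤ q.a i' := q.mono.monotone hs4
  have h3 : z ∈ q.A s := hz s (q.mono.monotone hs1) hs5
  refine h2 h3 j hs2 ?_
  have h4 : M ≤ q.a (s + 1) := hss.trans (q.mono.monotone (Nat.le_succ s))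
  obtain ⟨⟨m, hm⟩, -⟩ := hM (s + 1) h4
  rw [← hm] at hs3 ⊢
  exact p.mono.monotone (p.mono.lt_iff_lt.1 hs3)

/-- Products of large sets are large. -/
theorem LWR_large_R (hX : XBK_stmt) (hB : BLD_stmt) {S : Sys} (p : Cnd S) (N : ℕ) {J J' : ℕ}
    (hJJ' : J < J') (hL : ∀ j, J ≤ j → Lg S N (p.A j) (p.a j) (p.a (j + 1))) :
    Lg S N (p.R (p.a J) (p.a J')) (p.a J) (p.a J') := by
  intro t ht w h1 h2 hw
  obtain ⟨z, -, hz⟩ := hB S p N J hL (fun _ => t) (fun _ _ => ht) (fun _ => w) (fun _ => false)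
  refine ⟨z, ?_, ?_, ?_⟩
  · intro j hj _
    exact (hz j (p.mono.le_iff_le.1 hj)).1
  · intro e he _ hpos
    obtain ⟨j, hj1, hj2, hj3⟩ := (hX S p).1 J e he
    exact (hz j hj1).2.1 e hj2 hj3 hpos
  · obtain ⟨e, he1, he2, he3, he4⟩ := (hz J le_rfl).2.2 N le_rfl h1 h2 hw (hL J le_rfl)
    exact ⟨e, he1, lt_of_lt_of_le he2 (p.mono.monotone hJJ'), he3, he4⟩

theorem LWR (h1 : XBK_stmt) (h2 : BLD_stmt) (h3 : ORD_stmt) : LWR_stmt := by
  classical
  intro S p hp
  obtain ⟨o1, o2, -⟩ := h3 S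
  have hle : ∀ n m, n ≤ m → (p m).le (p n) := by
    intro n m hnm
    induction m, hnm using Nat.le_induction with
    | base => exact o1 _
    | succ m _ ih => exact o2 _ _ _ (hp m) ih
  -- thresholds
  have hthr : ∀ m n, ∃ M, n ≤ m → ∀ i, M ≤ (p m).a i →
      (p m).a i ∈ Set.range (p n).a ∧ (p m).A i ⊆ (p n).R ((p m).a i) ((p m).a (i + 1)) := by
    intro m n
    by_cases h : n ≤ m
    · obtain ⟨M, hM⟩ := hle n m h
      exact ⟨M, fun _ => hM⟩
    · exact ⟨0, fun h' => absurd h' h⟩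
  choose Th hTh using hthr
  have hlarge : ∀ m, ∃ J, ∀ j, J ≤ j → Lg S m ((p m).A j) ((p m).a j) ((p m).a (j + 1)) :=
    fun m => (p m).large m
  choose La hLa using hlarge
  -- bound needed at stage `m`
  let Bd : ℕ → ℕ := fun m => max (La m) ((Finset.range (m + 1)).sup (Th m))
  have hBd1 : ∀ m, La m ≤ Bd m := fun m => le_max_left _ _
  have hBd2 : ∀ m n, n ≤ m → Th m n ≤ Bd m := fun m n h =>
    (Finset.le_sup (f := Th m) (Finset.mem_range.2 (Nat.lt_succ_of_le h))).trans (le_max_right _ _)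
  -- indices `s i` in `p i`
  let s : ℕ → ℕ := fun i => Nat.rec (Bd 0) (fun i si => (p i).a si + 1 + Bd (i + 1)) i
  let d : ℕ → ℕ := fun i => (p i).a (s i)
  have hs0 : s 0 = Bd 0 := rfl
  have hss : ∀ i, s (i + 1) = d i + 1 + Bd (i + 1) := fun i => rfl
  have hsB : ∀ i, Bd i ≤ s i := by
    intro i
    cases i with
    | zero => exact le_of_eq hs0.symm
    | succ i => rw [hss]; omega
  have hdB : ∀ i, Bd i ≤ d i := fun i => (hsB i).trans ((p i).mono.id_le (s i))
  have hdlt : ∀ i, d i < d (i + 1) := by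
    intro i
    have h1 : s (i + 1) ≤ d (i + 1) := (p (i + 1)).mono.id_le (s (i + 1))
    have h2 := hss i
    omega
  have hdmono : StrictMono d := strictMono_nat_of_lt_succ hdlt
  -- `d (i+1)` is a cut point of `p i`
  have hcut : ∀ i, ∃ s', d (i + 1) = (p i).a s' := by
    intro i
    obtain ⟨⟨s', hs'⟩, -⟩ := hTh (i + 1) i (Nat.le_succ i) (s (i + 1))
      ((hBd2 (i + 1) i (Nat.le_succ i)).trans (hdB (i + 1)))
    exact ⟨s', hs'.symm⟩
  choose s' hs' using hcut
  have hss' : ∀ i, s i < s' i := by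
    intro i
    have h1 := hdlt i
    rw [hs' i] at h1
    exact (p i).mono.lt_iff_lt.1 h1
  let q : Cnd S :=
    { a := d
      A := fun i => (p i).R (d i) (d (i + 1))
      mono := hdmono
      loc := fun i u v huv hu => LWR_R_loc (p i) _ _ u v huv hu
      large := fun N => ⟨N, fun i hi => by
        refine LWR_Lg_mono ?_ hi
        have e1 : (p i).R (d i) (d (i + 1)) = (p i).R ((p i).a (s i)) ((p i).a (s' i)) := by
          rw [← hs' i]
        have e2 : Lg S i ((p i).R ((p i).a (s i)) ((p i).a (s' i))) ((p i).a (s i))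
            ((p i).a (s' i)) :=
          LWR_large_R h1 h2 (p i) i (hss' i)
            (fun j hj => hLa i j ((hBd1 i).trans ((hsB i).trans hj)))
        have e3 : d (i + 1) = (p i).a (s' i) := hs' i
        show Lg S i ((p i).R (d i) (d (i + 1))) (d i) (d (i + 1))
        rw [e1, e3]
        exact e2⟩ }
  refine ⟨q, fun n => ⟨d n, fun i hi => ?_⟩⟩
  have hni : n ≤ i := hdmono.le_iff_le.1 hi
  have hTi : Th i n ≤ (p i).a (s i) := (hBd2 i n hni).trans (hdB i)
  have hM := hTh i n hni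
  constructor
  · exact (hM (s i) hTi).1
  · show (p i).R (d i) (d (i + 1)) ⊆ (p n).R (d i) (d (i + 1))
    rw [hs' i]
    exact LWR_R_sub h1 hM hTi

end Pool.Agent.MM
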