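import Pool.Agent.helper91.MM.SpecA

/-!
# Project MM (MP_bfc607_gt), row UNQ
-/

set_option autoImplicit false

namespace Pool.Agent.MM

open Pool.Agent.Scheepers Filter Topology

theorem UNQ (h1 : PRJ_stmt) : UNQ_stmt := by
  classical
  intro E _ R hR B hB C hC
  have hex : ∀ x : ↥C, ∃ y, y ∈ B ∧ (x.1, y) ∈ R := fun x => (hC x.1 x.2).exists
  choose φ hφ using hex
  refine ⟨φ, ?_, hφ⟩
  rw [continuous_iff_isClosed]
  intro A hA
  have hcl := h1 E R hR (A ∩ B) (hA.inter hB)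
  have e : φ ⁻¹' A = Subtype.val ⁻¹' {x | ∃ y ∈ A ∩ B, (x, y) ∈ R} := by
    ext x
    constructor
    · intro hx
      exact ⟨φ x, ⟨hx, (hφ x).1⟩, (hφ x).2⟩
    · rintro ⟨y, ⟨hyA, hyB⟩, hyR⟩
      have hu : φ x = y := (hC x.1 x.2).unique (hφ x) ⟨hyB, hyR⟩
      show φ x ∈ A
      rw [hu]
      exact hyA
  rw [e]
  exact hcl.preimage continuous_subtype_val

end Pool.Agent.MM
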